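import Mathlib
import Pool.Agent.J4.H38.BP.Pts3

/-!
# Almost primes in very short intervals which start at the points of a sparse set

The problem is about the number of the primes in `(x, x + H]`, `H ≥ x ^ ε`. Matomäki (2022): for almost all integers `x ≤ N` the interval
`(x, x + H]`, where `H` is only a large multiple of `log N`, contains an integer with at most two prime factors. We prove this, with the right
order of magnitude for the number of these integers, when the starting points run through SPARSE sets.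

(1) The starting points are the numbers `N - p`, `p ≤ N` prime, for EVERY large `N` (so for almost all primes `p ≤ N` there are
`m ∈ (N, N + H]`, and in fact the right number of them, such that `m - p` has at most two prime factors), or the primes `p` themselves; the
lower bound `c H / log N` has an absolute constant `c`, for all but a proportion `δ` of the primes. (For the primes themselves the bound
`δ H / (2 log N)` is trivial from the mean of the gaps.)
(2) For every admissible pattern `T0 = {0, h_2, ..., h_m}` the exceptional set is small even in comparison with the integers `n` for which all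
the `n + h`, `h ∈ T0`, have no small prime factor, a set of about `N / (log N) ^ m` integers; for example the primes `p` such that
`p + 2` is an almost prime with large prime factors (`m = 2`), and so on.
(3) In particular (with a theorem of Maynard type from the library, 45 linear forms of diameter 212), almost all of a set of at least
`c₀ N / (log N) ^ 45` primes `p` followed by a prime `p + g` at a bounded distance `g ≤ 212` are such starting points.

Method: duality. For almost all shifts `d` the integers `n + d` are as often free of small prime factors as they should be when `n` runs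
through an ARBITRARY dense subset of the primes, of the sifted set, in particular through the set of the bad starting points; then Richert's
weighted sieve of level `111/200 > 1/2` and the large sieve inequality for the shifts. Sum over `d`.
-/

set_option autoImplicit false

namespace Pool.Agent.Results.MP_31d0eb_nt.AlmostPrimesAfterSparsePoints

open Finset Filter

open Classical in
/-- the number of the integers in `(n, n + H]` with at most two prime factors (counted with multiplicity), all of them at least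
`N ^ (1/7)` -/
noncomputable def almostPrimes (N n H : ℕ) : ℕ :=
  ((Ioc n (n + H)).filter (fun m : ℕ => m.primeFactorsList.length ≤ 2 ∧
    ∀ q ∈ m.primeFactors, (N : ℝ) ^ (1 / 7 : ℝ) ≤ (q : ℝ))).card

open Classical in
/-- the integers `n ≤ N` such that no `n + h`, `h ∈ T0`, has a prime factor `≤ N ^ κ` -/
noncomputable def sifted (T0 : Finset ℕ) (κ : ℝ) (N : ℕ) : Finset ℕ :=
  (Icc 1 N).filter (fun n => ∀ h ∈ T0, ∀ q : ℕ, q.Prime → (q : ℝ) ≤ (N : ℝ) ^ κ → ¬ q ∣ n + h)

lemma cP2_eq (N n H : ℕ) : Pool.Agent.J4.H38.BP.cP2 N n H = almostPrimes N n H := rfl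

open Classical in
/-- **Almost primes in very short intervals starting at sparse sets.**

(1) There is an absolute `c > 0` such that for every `δ > 0` there are `Λ` and `N₀` such that for all `N ≥ N₀` and `H` with `Λ log N ≤ H ≤ N`, all but
at most `δ N / log N` of the primes `p ≤ N` have at least `c H / log N` integers in `(N - p, N - p + H]` with at most two prime factors, all of them
at least `N ^ (1/7)`, and all but at most `δ N / log N` of the primes `p ≤ N` have at least `c H / log N` such integers in `(p, p + H]`.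

(2) Let `T0` be a finite set of integers `≥ 0` with `0 ∈ T0` which does not cover all residues modulo any prime, `m = #T0`. For all
`κ, δ > 0` there are `c > 0`, `Λ` and `N₀` such that for all `N ≥ N₀` and `H` with `Λ log N ≤ H ≤ N / 2`, all but at most `δ N / (log N) ^ m` of the
integers `n ≤ N` for which no `n + h`, `h ∈ T0`, has a prime factor `≤ N ^ κ` have at least `c H / log N` such integers in `(n, n + H]`.

(3) There is an absolute `c₀ > 0` such that for every `δ > 0` there are `c > 0`, `Λ` and `N₀` such that for every `N ≥ N₀` there are an even `g`,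
`2 ≤ g ≤ 212`, and a set `P` of at least `c₀ N / (log N) ^ 45` primes `p` for which `p + g ≤ N` is the NEXT prime after `p`, such that for all `H` with
`Λ log N ≤ H ≤ N / 2` all but a proportion `δ` of the `p` in `P` have at least `c H / log N` such integers in `(p, p + H]`. -/
theorem result :
    (∃ c : ℝ, 0 < c ∧ ∀ δ : ℝ, 0 < δ → ∃ (Λ : ℝ) (N₀ : ℕ), 0 < Λ ∧ ∀ N : ℕ, N₀ ≤ N → ∀ H : ℕ,
      Λ * Real.log N ≤ H → H ≤ N →
        ((((Icc 1 N).filter Nat.Prime).filter (fun p => (almostPrimes N (N - p) H : ℝ) < c * (H / Real.log N))).card : ℝ) ≤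
          δ * (N / Real.log N) ∧
        ((((Icc 1 N).filter Nat.Prime).filter (fun p => (almostPrimes N p H : ℝ) < c * (H / Real.log N))).card : ℝ) ≤
          δ * (N / Real.log N)) ∧
    (∀ T0 : Finset ℕ, 0 ∈ T0 → (∀ p : ℕ, p.Prime → ∃ a : ℕ, ∀ h ∈ T0, ¬ p ∣ a + h) → ∀ κ δ : ℝ, 0 < κ → 0 < δ →
      ∃ (c Λ : ℝ) (N₀ : ℕ), 0 < c ∧ 0 < Λ ∧ ∀ N : ℕ, N₀ ≤ N → ∀ H : ℕ, Λ * Real.log N ≤ H → (H : ℝ) ≤ N / 2 →
        (((sifted T0 κ N).filter (fun n => (almostPrimes N n H : ℝ) < c * (H / Real.log N))).card : ℝ) ≤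
          δ * (N / Real.log N ^ T0.card)) ∧
    ∃ c₀ : ℝ, 0 < c₀ ∧ ∀ δ : ℝ, 0 < δ → ∃ (c Λ : ℝ) (N₀ : ℕ), 0 < c ∧ 0 < Λ ∧ ∀ N : ℕ, N₀ ≤ N →
      ∃ g : ℕ, 2 ≤ g ∧ g ≤ 212 ∧ Even g ∧ ∃ P ⊆ Icc 1 N,
        (∀ p ∈ P, p.Prime ∧ (p + g).Prime ∧ p + g ≤ N ∧ ∀ r : ℕ, p < r → r < p + g → ¬ r.Prime) ∧
        c₀ * (N / Real.log N ^ 45) ≤ P.card ∧
        ∀ H : ℕ, Λ * Real.log N ≤ H → (H : ℝ) ≤ N / 2 →
          ((P.filter (fun p => (almostPrimes N p H : ℝ) < c * (H / Real.log N))).card : ℝ) ≤ δ * P.card := by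
  classical
  obtain ⟨cp, hcp, hpts⟩ := Pool.Agent.J4.H38.BP.pts
  have hadm' : ∀ T0 : Finset ℕ, (∀ p : ℕ, p.Prime → ∃ a : ℕ, ∀ h ∈ T0, ¬ p ∣ a + h) →
      ∀ p : ℕ, p.Prime → Pool.Agent.J4.H38.SR.fT T0 p < p := by
    intro T0 h p hp
    obtain ⟨a, ha⟩ := h p hp
    unfold Pool.Agent.J4.H38.SR.fT
    have h1 : (range p).filter (fun r => ∃ t ∈ T0, p ∣ r + t) ⊂ range p := by
      rw [filter_ssubset]
      refine ⟨a % p, mem_range.2 (Nat.mod_lt _ hp.pos), ?_⟩
      rintro ⟨t, ht, h2⟩
      refine ha t ht ?_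
      rw [Nat.dvd_iff_mod_eq_zero] at h2 ⊢
      rwa [Nat.add_mod, Nat.mod_mod, ← Nat.add_mod] at h2
    have h2 := card_lt_card h1
    rwa [card_range] at h2
  have hWpos : ∀ w : ℕ, (0 : ℝ) < ((∏ p ∈ Pool.Agent.H373R2.T7.pz w, p : ℕ) : ℝ) := by
    intro w
    have : 0 < ∏ p ∈ Pool.Agent.H373R2.T7.pz w, p :=
      prod_pos fun p hp => (Pool.Agent.H373R2.T7.mem_pz.1 hp).2.pos
    exact_mod_cast this
  have hH2 : ∀ N H : ℕ, (H : ℝ) ≤ N / 2 → 2 * H ≤ N := by
    intro N H h
    have h1 : (2 : ℝ) * H ≤ N := by linarith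
    exact_mod_cast h1
  refine ⟨?_, fun T0 h0 hadm κ δ hκ hδ => ?_, ?_⟩
  · obtain ⟨c1, hc1, hG⟩ := Pool.Agent.J4.H38.BP.ptsPG
    obtain ⟨c2, hc2, hP⟩ := Pool.Agent.J4.H38.BP.ptsP
    refine ⟨min c1 c2, lt_min hc1 hc2, fun δ hδ => ?_⟩
    obtain ⟨Λ1, hΛ1, h1⟩ := hG δ hδ
    obtain ⟨Λ2, hΛ2, h2⟩ := hP δ hδ
    obtain ⟨N₁, hN₁⟩ := eventually_atTop.1 h1
    obtain ⟨N₂, hN₂⟩ := eventually_atTop.1 h2
    refine ⟨max Λ1 Λ2, max (max N₁ N₂) 1, lt_max_of_lt_left hΛ1, fun N hN H hH1 hH => ?_⟩
    have hN1 : 1 ≤ N := (le_max_right _ _).trans hN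
    have hL0 : 0 ≤ Real.log N := Real.log_nonneg (by exact_mod_cast hN1)
    have hHL : (0 : ℝ) ≤ H / Real.log N := by positivity
    constructor
    · by_contra hcon
      refine hN₁ N ((le_max_left _ _).trans ((le_max_left _ _).trans hN)) H
        ((mul_le_mul_of_nonneg_right (le_max_left _ _) hL0).trans hH1) hH _ (filter_subset _ _) (not_le.1 hcon).le
        fun n hn => ?_
      rw [cP2_eq]
      exact (mem_filter.1 hn).2.trans_le (mul_le_mul_of_nonneg_right (min_le_left _ _) hHL)
    · by_contra hcon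
      refine hN₂ N ((le_max_right _ _).trans ((le_max_left _ _).trans hN)) H
        ((mul_le_mul_of_nonneg_right (le_max_right _ _) hL0).trans hH1) hH _ (filter_subset _ _) (not_le.1 hcon).le
        fun n hn => ?_
      rw [cP2_eq]
      exact (mem_filter.1 hn).2.trans_le (mul_le_mul_of_nonneg_right (min_le_right _ _) hHL)
  · obtain ⟨w₀, hw₀, h⟩ := hpts T0 0 h0 (hadm' T0 hadm) δ κ hδ hκ
    obtain ⟨Λ, hΛ, h⟩ := h w₀ le_rfl
    obtain ⟨N₀, hN₀⟩ := eventually_atTop.1 h
    refine ⟨cp / ((∏ p ∈ Pool.Agent.H373R2.T7.pz w₀, p : ℕ) : ℝ), Λ, N₀, div_pos hcp (hWpos w₀), hΛ,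
      fun N hN H hH1 hH => ?_⟩
    by_contra hc
    refine hN₀ N hN H hH1 (hH2 N H hH) _ ?_ ?_ (not_le.1 hc).le ?_
    · refine (filter_subset _ _).trans ?_
      unfold sifted
      exact filter_subset _ _
    · intro n hn
      have h1 := (mem_filter.1 hn).1
      unfold sifted at h1
      rw [mem_filter, mem_Icc] at h1
      refine ⟨h1.1.1, fun h hh q hq hqN => ?_⟩
      rw [Nat.sub_zero]
      exact h1.2 h hh q hq hqN
    · intro n hn
      rw [cP2_eq]
      exact (mem_filter.1 hn).2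
  · obtain ⟨κ1, δ₀, F, hκ1, hδ₀, hF, hpairs⟩ := Pool.Agent.J4.H38.BP.cons45
    refine ⟨δ₀, hδ₀, fun δ hδ => ?_⟩
    obtain ⟨w, hw, Λ, hΛ, h⟩ := Pool.Agent.J4.H38.BP.fam F (fun T0 w N H => 2 * H ≤ N →
      ∀ B ⊆ Icc 1 N, Pool.Agent.J4.H38.BP.RoP T0 212 κ1 N B → δ * δ₀ * (N / Real.log N ^ T0.card) ≤ B.card →
      ¬ ∀ n ∈ B, (Pool.Agent.J4.H38.BP.cP2 N n H : ℝ) <
        cp / (∏ p ∈ Pool.Agent.H373R2.T7.pz w, p : ℕ) * (H / Real.log N))
      fun T0 hT0 => hpts T0 212 (hF T0 hT0).2.1 (hF T0 hT0).2.2 (δ * δ₀) κ1 (mul_pos hδ hδ₀) hκ1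
    obtain ⟨N₀, hN₀⟩ := eventually_atTop.1 (h.and hpairs)
    refine ⟨cp / ((∏ p ∈ Pool.Agent.H373R2.T7.pz w, p : ℕ) : ℝ), Λ, N₀, div_pos hcp (hWpos w), hΛ, fun N hN => ?_⟩
    obtain ⟨h, T0, hT0, g, hg2, hg, hev, P, hP, hPp, hPc⟩ := hN₀ N hN
    refine ⟨g, hg2, hg, hev, P, hP, fun p hp => ⟨(hPp p hp).2.2.1, (hPp p hp).2.2.2.1, (hPp p hp).2.1,
      (hPp p hp).2.2.2.2.1⟩, hPc, fun H hH1 hH => ?_⟩
    by_contra hc
    refine h H hH1 T0 hT0 (hH2 N H hH) (P.filter (fun p => (almostPrimes N p H : ℝ) <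
        cp / ((∏ p ∈ Pool.Agent.H373R2.T7.pz w, p : ℕ) : ℝ) * (H / Real.log N)))
      ((filter_subset _ _).trans hP) ?_ ?_ ?_
    · intro p hp
      have h1 := hPp p (mem_filter.1 hp).1
      exact ⟨h1.1, h1.2.2.2.2.2⟩
    · rw [(hF T0 hT0).1]
      refine le_trans ?_ (not_le.1 hc).le
      rw [mul_assoc]
      exact mul_le_mul_of_nonneg_left hPc hδ.le
    · intro p hp
      rw [cP2_eq]
      exact (mem_filter.1 hp).2

end Pool.Agent.Results.MP_31d0eb_nt.AlmostPrimesAfterSparsePoints
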