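import Pool.Agent.J4.H93.SF.SF6

/-!
# Primes in short intervals `(x, x + H]` at the points `x = a + f(n)`: `a` in an arbitrary set, `f` a polynomial

`π(x, H)` is the number of the primes in `(x, x + H]`. Let `f` be an integer polynomial of degree `d ≥ 2` with an
arbitrary fixed leading coefficient and arbitrary lower coefficients, and let `n` run over the integers below `b ^ k`
with restricted digits. Then the short intervals behind the points `x = a + f(n)` contain the expected number of primes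
on average over `a ∈ A`, for EVERY set `A` of integers up to `N ≍ b ^ (d k)` which is not too sparse, for almost all
`n`, and for all the lengths `H` simultaneously:

* if `A` has at least `N / (log N) ^ C` elements, the mean value of `π(x, H) log x / H` is `1 + O(δ)` for all
  `(log N) ^ K ≤ H ≤ N`;
* if `A` has at least `N ^ (1 - η)` elements, it lies between two positive constants for all `N ^ ε ≤ H ≤ N`.

The values `f(n)` form a set of at most `N ^ (1 / d)` integers (and, for restricted digits, of at most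
`N ^ (log (b - 1) / (d log b))` integers), so that this does not follow from the starting theorem
`TranslatesOfSets` (all the shifts up to `N`, with at most `N ^ (1 - κ)` exceptions).

Proof: an inequality of Weyl's type for independent digits (`Pool.Agent.J4.H93.PD.weyl_deg`) shows that a high moment
of the exponential sum over the values is bounded (`Pool.Agent.J4.H93.PD.moment_deg`). So the sum is large at very few
frequencies only, and the variance over `n` of a sum over all frequencies `r / M` with the coefficients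
`S_P(-r / M) S_A(r / M) (kernel)` is small (`Pool.Agent.J4.H93.SF.var_le`): this compares the length `H` with a long
length, where the prime number theorem (resp. Hoheisel's theorem) applies.
-/

set_option autoImplicit false

namespace Pool.Agent.Results.MP_31d0eb_nt.PolynomialStartingPoints

open Finset Polynomial

/-- `π(x, H) log x / H`, where `π(x, H)` is the number of the primes in `(x, x + H]` -/
noncomputable def density (x : ℕ) (H : ℝ) : ℝ :=
  ((Nat.primeCounting ⌊(x : ℝ) + H⌋₊ : ℝ) - Nat.primeCounting x) * Real.log x / H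

/-- The integers below `b ^ k` whose `i`-th digit in base `b` lies in `D i`, for all `i < k`. -/
def S (b : ℕ) (D : ℕ → Finset ℕ) (k : ℕ) : Finset ℕ :=
  (range (b ^ k)).filter (fun n : ℕ => ∀ i < k, n / b ^ i % b ∈ D i)

open Classical in
/-- the mean value of `π(x, H) log x / H` over the points `x = a + m`, `a ∈ A`, differs from `1` by at most `δ`, and at
least `(1 / 4 - δ) |A|` of these points satisfy `π(x, H) log x / H ≥ δ / 16` -/
def Asym (δ : ℝ) (A : Finset ℕ) (m : ℕ) (H : ℝ) : Prop :=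
  |(∑ a ∈ A, density (a + m) H) / A.card - 1| ≤ δ ∧
    (1 / 4 - δ) * A.card ≤ ((A.filter (fun a => δ / 16 ≤ density (a + m) H)).card : ℝ)

open Classical in
/-- the mean value of `π(x, H) log x / H` over the points `x = a + m`, `a ∈ A`, lies between `c` and `6`, and at least
`c |A|` of these points satisfy `π(x, H) log x / H ≥ c` -/
def Order (c : ℝ) (A : Finset ℕ) (m : ℕ) (H : ℝ) : Prop :=
  c ≤ (∑ a ∈ A, density (a + m) H) / A.card ∧ (∑ a ∈ A, density (a + m) H) / A.card ≤ 6 ∧
    c * A.card ≤ ((A.filter (fun a => c ≤ density (a + m) H)).card : ℝ)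

open Classical in
/-- Let `b ≥ 2`, `d ≥ 2`, `F` and `κ ≠ 0` be fixed, and let `k` be large. Let `D 0, …, D (k - 1)` be arbitrary sets of at
least two digits in base `b`, and let `S` be the set of the integers below `b ^ k` whose `i`-th digit lies in `D i` for
all `i < k`. Let `f` be a polynomial of degree `d` with integral coefficients and the leading coefficient `κ`; the lower
coefficients are arbitrary and may depend on `k`. Let `b ^ (d k) ≤ N ≤ F b ^ (d k)`, and let `A` be an ARBITRARY set of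
integers in `[1, N]`.

(1) For every `C` there is `K` such that for every `δ > 0`: if `A` has at least `N / (log N) ^ C` elements, then for all
`n ∈ S` but at most `#S / (log N) ^ C`, for ALL the integers `m` in `[1, N]` with `|m - f(n)| ≤ (log N) ^ C` and ALL real
`H` with `(log N) ^ K ≤ H ≤ N` the mean value of `π(x, H) log x / H` over the points `x = a + m`, `a ∈ A`, differs from
`1` by at most `δ` (and a proportion of at least `1 / 4 - δ` of these intervals contains at least `(δ / 16) H / log x`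
primes).

(2) There is an absolute constant `c > 0` such that for every `0 < ε < 1` there is `η > 0`: if `A` has at least
`N ^ (1 - η)` elements, then for all `n ∈ S` but at most `#S / N ^ η`, for ALL the integers `m` in `[1, N]` with
`|m - f(n)| ≤ N ^ η` and ALL real `H` with `N ^ ε ≤ H ≤ N` this mean value lies between `c` and `6`, and a proportion of
at least `c` of the intervals contains at least `c H / log x` primes. -/
theorem result :
    (∀ b d F C : ℕ, 2 ≤ b → 2 ≤ d → ∀ κ : ℤ, κ ≠ 0 → ∃ K : ℕ, ∀ δ : ℝ, 0 < δ → δ ≤ 1 → ∃ k₀ : ℕ, ∀ k : ℕ, k₀ ≤ k →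
      ∀ D : ℕ → Finset ℕ, (∀ i < k, D i ⊆ range b ∧ 2 ≤ (D i).card) →
      ∀ f : ℤ[X], f.natDegree = d → f.leadingCoeff = κ →
      ∀ N : ℕ, b ^ (d * k) ≤ N → N ≤ F * b ^ (d * k) →
      ∀ A : Finset ℕ, A ⊆ Icc 1 N → (N : ℝ) / Real.log N ^ C ≤ A.card →
      (((S b D k).filter (fun n : ℕ => ∃ m : ℕ, 1 ≤ m ∧ m ≤ N ∧ |(m : ℝ) - f.eval (n : ℤ)| ≤ Real.log N ^ C ∧
        ∃ H : ℝ, Real.log N ^ K ≤ H ∧ H ≤ N ∧ ¬ Asym δ A m H)).card : ℝ) ≤ (S b D k).card / Real.log N ^ C) ∧
    ∃ c : ℝ, 0 < c ∧ ∀ b d F : ℕ, 2 ≤ b → 2 ≤ d → ∀ κ : ℤ, κ ≠ 0 → ∀ ε : ℝ, 0 < ε → ε < 1 →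
      ∃ η : ℝ, 0 < η ∧ ∃ k₀ : ℕ, ∀ k : ℕ, k₀ ≤ k →
      ∀ D : ℕ → Finset ℕ, (∀ i < k, D i ⊆ range b ∧ 2 ≤ (D i).card) →
      ∀ f : ℤ[X], f.natDegree = d → f.leadingCoeff = κ →
      ∀ N : ℕ, b ^ (d * k) ≤ N → N ≤ F * b ^ (d * k) →
      ∀ A : Finset ℕ, A ⊆ Icc 1 N → (N : ℝ) ^ (1 - η) ≤ A.card →
      (((S b D k).filter (fun n : ℕ => ∃ m : ℕ, 1 ≤ m ∧ m ≤ N ∧ |(m : ℝ) - f.eval (n : ℤ)| ≤ (N : ℝ) ^ η ∧
        ∃ H : ℝ, (N : ℝ) ^ ε ≤ H ∧ H ≤ N ∧ ¬ Order c A m H)).card : ℝ) ≤ (S b D k).card / (N : ℝ) ^ η := by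
  constructor
  · intro b d F C hb hd κ hκ
    obtain ⟨e, rfl⟩ : ∃ e, d = e + 2 := ⟨d - 2, by omega⟩
    obtain ⟨p, C₁, hp, hC₁, hlaw⟩ := Pool.Agent.J4.H93.SF.law_deg b hb e κ hκ (F + 1) (by omega)
    obtain ⟨K, hK⟩ := Pool.Agent.J4.H93.SF.nbhd_asym C C p
    refine ⟨K, fun δ hδ hδ1 => ?_⟩
    obtain ⟨N₀, hN₀⟩ := Filter.eventually_atTop.1 ((hK C₁ δ hδ hδ1).and (Pool.Agent.W301.SS.ev_L 1))
    refine ⟨N₀, fun k hk D hD f hf1 hf2 N hN1 hN2 A hA hAN => ?_⟩
    have hN : N₀ ≤ N := by
      calc N₀ ≤ k := hk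
        _ ≤ (e + 2) * k := Nat.le_mul_of_pos_left _ (by omega)
        _ ≤ b ^ ((e + 2) * k) := (Nat.lt_pow_self (by omega)).le
        _ ≤ N := hN1
    obtain ⟨h1, h2⟩ := hN₀ N hN
    have hℓ : 0 < Real.log N := by linarith
    have hpw : 0 < Real.log N ^ C := by positivity
    rw [div_le_iff₀ hpw] at hAN
    have hc : f.coeff (e + 2) = κ := by rw [← hf2, Polynomial.leadingCoeff, hf1]
    have h3 := Pool.Agent.J4.H93.PD.PF_poly f (e + 2) hf1.le
    rw [hc] at h3
    have h4 := hlaw k N hN1 (hN2.trans (Nat.mul_le_mul_right _ (by omega))) D hD (fun n => f.eval (n : ℤ)) _ h3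
      (fun n => Pool.Agent.J4.H93.PD.poly_val f n)
    rw [le_div_iff₀ hpw]
    exact h1 A hA hAN (S b D k) (fun n => f.eval (n : ℤ)) h4
  · obtain ⟨c, hc0, hmain⟩ := Pool.Agent.J4.H93.SF.nbhd_right
    refine ⟨c, hc0, fun b d F hb hd κ hκ ε hε hε1 => ?_⟩
    obtain ⟨e, rfl⟩ : ∃ e, d = e + 2 := ⟨d - 2, by omega⟩
    obtain ⟨p, C₁, hp, hC₁, hlaw⟩ := Pool.Agent.J4.H93.SF.law_deg b hb e κ hκ (F + 1) (by omega)
    obtain ⟨η, hη0, hη⟩ := hmain p hp ε hε hε1
    obtain ⟨N₀, hN₀⟩ := Filter.eventually_atTop.1 (hη C₁)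
    refine ⟨η, hη0, N₀, fun k hk D hD f hf1 hf2 N hN1 hN2 A hA hAN => ?_⟩
    have hN : N₀ ≤ N := by
      calc N₀ ≤ k := hk
        _ ≤ (e + 2) * k := Nat.le_mul_of_pos_left _ (by omega)
        _ ≤ b ^ ((e + 2) * k) := (Nat.lt_pow_self (by omega)).le
        _ ≤ N := hN1
    have hN0 : (0 : ℝ) < N := by
      have h5 : 1 ≤ b ^ ((e + 2) * k) := Nat.one_le_pow _ _ (by omega)
      exact_mod_cast (by omega : 0 < N)
    have hpw : 0 < (N : ℝ) ^ η := by positivity
    have hc : f.coeff (e + 2) = κ := by rw [← hf2, Polynomial.leadingCoeff, hf1]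
    have h3 := Pool.Agent.J4.H93.PD.PF_poly f (e + 2) hf1.le
    rw [hc] at h3
    have h4 := hlaw k N hN1 (hN2.trans (Nat.mul_le_mul_right _ (by omega))) D hD (fun n => f.eval (n : ℤ)) _ h3
      (fun n => Pool.Agent.J4.H93.PD.poly_val f n)
    rw [le_div_iff₀ hpw]
    exact hN₀ N hN A hA hAN (S b D k) (fun n => f.eval (n : ℤ)) h4

end Pool.Agent.Results.MP_31d0eb_nt.PolynomialStartingPoints
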