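import Pool.Agent.J4.H35.ProgE

/-!
# Windows started in a single residue class to a large modulus

The problem asks for `π(n, H) log n / H → 1` for all windows of length `H ≥ n ^ ε`. Here the mean
of this quantity over the starting points `n ∈ (N, 2N]` in ONE residue class `b` modulo `q` is
found: for almost all moduli `q ≤ Q ≤ N ^ (1 - ε)`, for EVERY class `b` (which may depend on `q`,
on `N` and on `H` in any way), and for all lengths `H` with
`(1 + Q ^ 2 / N) (log N) ^ C ≤ H ≤ N`.

So for windows of length `N ^ η` sets of only `N ^ ((1 - η) / 2 + κ)` starting points suffice,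
and windows of length `(log N) ^ C` are equidistributed on average over the `√N` points of every
residue class to almost every modulus `q ≤ √N`. By the Brun-Titchmarsh inequality it follows that
in every such class at least the proportion `(1 - c) η / 2` of the windows themselves, of any
length `H ≥ N ^ η`, contain at least `c H / log n` primes, for every `c < 1`.

Proof. The classes `b(q) + 1, ..., b(q) + H` form a family of residue systems any two of which
coincide for few moduli only. By the large sieve and the theorem of Siegel and Walfisz all but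
`(Q ^ 2 / N) (log N) ^ B` of them satisfy a bound of the type of Bombieri and Vinogradov. The sum
over the shifts of the absolute values of the errors is increasing with `H`, so that the worst
class and the worst length of each dyadic range can be chosen for every modulus.
-/

set_option autoImplicit false

namespace Pool.Agent.Results.MP_31d0eb_nt.ProgressionsOfStartingPoints

open Finset

/-- `π(x, H)` for integers `x`, `H`: the number of the primes `p` with `x < p ≤ x + H` -/
def primesInWindow (x H : ℕ) : ℕ := ((Ioc x (x + H)).filter Nat.Prime).card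

/-- the starting points: the integers `n` with `N < n ≤ 2 N` in the class of `b` modulo `q` -/
def starts (N q b : ℕ) : Finset ℕ := (Ioc N (2 * N)).filter (fun n => n ≡ b [MOD q])

/-- the mean of `π(n, H) log n / H` over the starting points -/
noncomputable def meanDensity (N q b H : ℕ) : ℝ :=
  (∑ n ∈ starts N q b, (primesInWindow n H : ℝ) * Real.log n / H) / (starts N q b).card

theorem result (ε δ η c : ℝ) (hε : 0 < ε) (hε1 : ε < 1) (hδ : 0 < δ) (hη : 0 < η) (hη1 : η ≤ 1)
    (hc : 0 < c) (hc1 : c < 1) (A : ℕ) :
    ∃ C N₀ : ℕ, ∀ N : ℕ, N₀ ≤ N → ∀ Q : ℕ, 1 ≤ Q → (Q : ℝ) ≤ (N : ℝ) ^ (1 - ε) →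
      ∃ Ex : Finset ℕ, Ex ⊆ Icc 1 Q ∧ (Ex.card : ℝ) ≤ Q / Real.log N ^ A ∧
        ∀ q ∈ Icc 1 Q, q ∉ Ex → ∀ b H : ℕ, H ≤ N → (1 + (Q : ℝ) ^ 2 / N) * Real.log N ^ C ≤ H →
          |meanDensity N q b H - 1| ≤ δ ∧
          ((N : ℝ) ^ η ≤ H → (1 - c) * (η / 2) * (starts N q b).card ≤
            (((starts N q b).filter
              (fun n : ℕ => c * H / Real.log n ≤ (primesInWindow n H : ℝ))).card : ℝ)) := by
  obtain ⟨C, N1, h1⟩ := Pool.Agent.J4.H35.Prog.mean_main ε (min δ ((1 - c) * (c * η / 4))) hε hε1
    (lt_min hδ (mul_pos (by linarith) (by positivity))) A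
  obtain ⟨N2, h2⟩ := Pool.Agent.J4.H35.Prog.prop_main c η hc hc1 hη hη1
  refine ⟨C, max N1 N2, fun N hN Q hQ hQN => ?_⟩
  obtain ⟨Ex, hE1, hE2, hE3⟩ := h1 N ((le_max_left _ _).trans hN) Q hQ hQN
  refine ⟨Ex, hE1, hE2, fun q hq hqE b H hHN hH => ?_⟩
  have h3 : |meanDensity N q b H - 1| ≤ min δ ((1 - c) * (c * η / 4)) := hE3 q hq hqE b H hHN hH
  refine ⟨h3.trans (min_le_left _ _), fun hHη => ?_⟩
  have h4 : |meanDensity N q b H - 1| ≤ (1 - c) * (c * η / 4) := h3.trans (min_le_right _ _)
  have hne : (starts N q b).Nonempty := by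
    rw [nonempty_iff_ne_empty]
    intro h0
    have h5 : meanDensity N q b H = 0 := by
      unfold meanDensity
      rw [h0, card_empty, sum_empty, Nat.cast_zero, div_zero]
    rw [h5] at h4
    have h6 : (1 - c) * (c * η / 4) < 1 := by nlinarith [mul_pos hc hη]
    rw [abs_sub_comm, sub_zero, abs_one] at h4
    linarith
  exact h2 N ((le_max_right _ _).trans hN) (starts N q b) (filter_subset _ _) hne H hHη
    (by have := (abs_le.1 h4).1; unfold meanDensity at this; unfold Pool.Agent.J4.H35.Prog.piWin; unfold primesInWindow at this; linarith)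

end Pool.Agent.Results.MP_31d0eb_nt.ProgressionsOfStartingPoints
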