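import Pool.Agent.J4.H35.SqB

/-!
# The square function of the primes over all dyadic scales is bounded

Let `fluct X n h H` be the deviation of the number of the primes in `(n, n + h]` from the
proportional part `h / H` of their number in `(n, n + H]`, relative to the expected number
`H / log X`. We show that for every `θ > 0` the sum over ALL dyadic scales `H = 2 ^ j` between
`log X` and `Y` of the mean over the integers `n` of `(X, X + Y]` of the largest square
`max_{h ≤ H} fluct ^ 2` is bounded by a constant `C = C(θ)`, for every interval `(X, X + Y]` with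
`X ^ θ ≤ Y ≤ X`. There are about `log Y / log 2` scales, so at most scales the primes of almost all
windows `(n, n + H]` are uniformly distributed up to relative errors of the size
`(log X) ^ (-1/2)`, and all but at most `C / κ` scales have mean square at most `κ`.

Consequently all but `η Y` of the integers `n` of `(X, X + Y]` have at most `C / (η δ ^ 2)` scales
at which the primes of `(n, n + H]` are not uniformly distributed up to `δ H / log X`: an explicit
bound in the theorems on all but boundedly many scales. Here `C` and `X₀` do not depend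
on `δ` and `η`.

Proof. The second moment of the number of the primes in the windows of length `log X` (a sieve bound
for prime pairs) is the total energy; the parallelogram law distributes it over the scales. The
maximum over `h` is found by chaining the dyadic blocks, with geometric weights.
-/

set_option autoImplicit false

namespace Pool.Agent.Results.MP_31d0eb_nt.SquareFunction

open Finset

/-- `π(x, H)` for integers `x`, `H`: the number of the primes `p` with `x < p ≤ x + H` -/
def primesInWindow (x H : ℕ) : ℕ := ((Ioc x (x + H)).filter Nat.Prime).card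

/-- `(π(n, h) - (h / H) π(n, H)) log X / H` -/
noncomputable def fluct (X n h H : ℕ) : ℝ :=
  ((primesInWindow n h : ℝ) - (h : ℝ) / H * primesInWindow n H) * (Real.log X / H)

/-- the set of the `j` with `log X ≤ 2 ^ j ≤ Y` -/
noncomputable def scales (X Y : ℕ) : Finset ℕ :=
  (range (Nat.log 2 Y + 1)).filter (fun j => Real.log X ≤ (2 : ℝ) ^ j)

open Classical in
theorem result (θ : ℝ) (hθ0 : 0 < θ) (hθ1 : θ ≤ 1) : ∃ C : ℝ, 0 < C ∧ ∃ X₀ : ℕ,
    ∀ X : ℕ, X₀ ≤ X → ∀ Y : ℕ, (X : ℝ) ^ θ ≤ Y → Y ≤ X →
      (∀ h : ℕ → ℕ → ℕ, (∀ j n, h j n ≤ 2 ^ j) →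
        ∑ j ∈ scales X Y, ∑ n ∈ Ioc X (X + Y), fluct X n (h j n) (2 ^ j) ^ 2 ≤ C * Y) ∧
      ∀ δ η : ℝ, 0 < δ → 0 < η →
        (((Ioc X (X + Y)).filter (fun n => C / (η * δ ^ 2) <
          (((scales X Y).filter (fun j => ∃ h ≤ 2 ^ j, δ < |fluct X n h (2 ^ j)|)).card : ℝ))).card : ℝ) ≤
          η * Y := by
  obtain ⟨C, hC0, X₀, hC⟩ := Pool.Agent.J4.H35.Sq.primes_square θ hθ0 hθ1
  refine ⟨C, hC0, X₀, fun X hX Y hXY hYX => ?_⟩
  have hmain : ∀ h : ℕ → ℕ → ℕ, (∀ j n, h j n ≤ 2 ^ j) →
      ∑ j ∈ scales X Y, ∑ n ∈ Ioc X (X + Y), fluct X n (h j n) (2 ^ j) ^ 2 ≤ C * Y :=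
    hC X hX Y hXY hYX
  refine ⟨hmain, fun δ η hδ hη => ?_⟩
  -- the worst lengths
  let h : ℕ → ℕ → ℕ := fun j n =>
    if hx : ∃ h ≤ 2 ^ j, δ < |fluct X n h (2 ^ j)| then hx.choose else 0
  have hh : ∀ j n, h j n ≤ 2 ^ j := by
    intro j n
    simp only [h]
    split_ifs with hx
    · exact hx.choose_spec.1
    · exact Nat.zero_le _
  have hh2 : ∀ j n, (∃ h ≤ 2 ^ j, δ < |fluct X n h (2 ^ j)|) → δ < |fluct X n (h j n) (2 ^ j)| := by
    intro j n hx
    simp only [h]
    rw [dif_pos hx]
    exact hx.choose_spec.2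
  have h1 := hmain h hh
  rw [sum_comm] at h1
  set B : Finset ℕ := (Ioc X (X + Y)).filter (fun n => C / (η * δ ^ 2) <
          (((scales X Y).filter (fun j => ∃ h ≤ 2 ^ j, δ < |fluct X n h (2 ^ j)|)).card : ℝ)) with hB
  have h2 : (B.card : ℝ) * (C / η) ≤ C * Y := by
    calc (B.card : ℝ) * (C / η) = ∑ _n ∈ B, C / η := by rw [sum_const, nsmul_eq_mul]
      _ ≤ ∑ n ∈ B, ∑ j ∈ scales X Y, fluct X n (h j n) (2 ^ j) ^ 2 := by
          apply sum_le_sum
          intro n hn
          rw [hB, mem_filter] at hn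
          have h3 := hn.2
          rw [div_lt_iff₀ (by positivity)] at h3
          rw [div_le_iff₀ hη]
          have h4 : (((scales X Y).filter (fun j => ∃ h ≤ 2 ^ j, δ < |fluct X n h (2 ^ j)|)).card : ℝ) * δ ^ 2 ≤
              ∑ j ∈ scales X Y, fluct X n (h j n) (2 ^ j) ^ 2 := by
            calc _ = ∑ _j ∈ (scales X Y).filter (fun j => ∃ h ≤ 2 ^ j, δ < |fluct X n h (2 ^ j)|), δ ^ 2 := by
                  rw [sum_const, nsmul_eq_mul]
              _ ≤ ∑ j ∈ (scales X Y).filter (fun j => ∃ h ≤ 2 ^ j, δ < |fluct X n h (2 ^ j)|),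
                    fluct X n (h j n) (2 ^ j) ^ 2 := by
                  apply sum_le_sum
                  intro j hj
                  rw [mem_filter] at hj
                  rw [← sq_abs (fluct X n (h j n) (2 ^ j))]
                  exact pow_le_pow_left₀ hδ.le (hh2 j n hj.2).le 2
              _ ≤ _ := sum_le_sum_of_subset_of_nonneg (filter_subset _ _) (fun _ _ _ => sq_nonneg _)
          calc C ≤ (((scales X Y).filter (fun j => ∃ h ≤ 2 ^ j, δ < |fluct X n h (2 ^ j)|)).card : ℝ) *
                (η * δ ^ 2) := h3.le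
            _ = ((((scales X Y).filter (fun j => ∃ h ≤ 2 ^ j, δ < |fluct X n h (2 ^ j)|)).card : ℝ) *
                δ ^ 2) * η := by ring
            _ ≤ _ := by gcongr
      _ ≤ ∑ n ∈ Ioc X (X + Y), ∑ j ∈ scales X Y, fluct X n (h j n) (2 ^ j) ^ 2 := by
          apply sum_le_sum_of_subset_of_nonneg (filter_subset _ _)
          intro _ _ _
          exact sum_nonneg fun _ _ => sq_nonneg _
      _ ≤ C * Y := h1
  have h5 : (B.card : ℝ) * (C / η) = (B.card : ℝ) / η * C := by ring
  rw [h5, mul_comm C] at h2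
  have h6 := le_of_mul_le_mul_right h2 hC0
  rw [div_le_iff₀ hη] at h6
  linarith

end Pool.Agent.Results.MP_31d0eb_nt.SquareFunction
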